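import Pool.Agent.KS6_20.WV.LarFin
import Pool.Graph.R_seed8.Helper152.LarFin

set_option autoImplicit false
open MeasureTheory

namespace Pool.Agent.Results.MP_d16bbf_an.EveryIntegerDilation

/-- For every integer dilation N ≥ 2 and every L² function φ whose N-adic wavelet frequency system
N^{-j/2} e^{-2πi k N^{-j} ξ} φ(N^{-j} ξ) is an orthonormal basis of L²(ℝ), some measurable set W inside
{φ ≠ 0} tiles ℝ a.e. by integer translates and by dilates by powers of N. -/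
theorem result :
    ∀ N : ℕ, 2 ≤ N → ∀ (φ : ℝ → ℂ) (F : ℤ → ℤ → ℝ → ℂ),
      MemLp φ 2 volume →
      (∀ (j k : ℤ) (ξ : ℝ), F j k ξ =
        ((Real.sqrt ((N:ℝ) ^ (-j)) : ℝ) : ℂ) *
          Complex.exp (-(2 * (Real.pi : ℂ) * Complex.I * (k : ℂ) * ((((N:ℝ) ^ (-j)) * ξ : ℝ) : ℂ))) *
          φ (((N:ℝ) ^ (-j)) * ξ)) →
      (∀ j k j' k' : ℤ, ∫ ξ, F j k ξ * (starRingEnd ℂ) (F j' k' ξ) =
        if j = j' ∧ k = k' then (1:ℂ) else 0) →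
      (∀ g : ℝ → ℂ, MemLp g 2 volume →
        (∀ j k : ℤ, ∫ ξ, g ξ * (starRingEnd ℂ) (F j k ξ) = 0) → g =ᵐ[volume] 0) →
      ∃ W : Set ℝ, MeasurableSet W ∧
        (∀ᵐ x : ℝ ∂volume, ∃! k : ℤ, x - (k : ℝ) ∈ W) ∧
        (∀ᵐ x : ℝ ∂volume, ∃! j : ℤ, ((N:ℝ) ^ (-j)) * x ∈ W) ∧
        (∀ᵐ ξ : ℝ ∂volume, ξ ∈ W → φ ξ ≠ 0) := by
  intro N hN φ F hφ hF ho hc
  rcases Nat.lt_or_ge 2 N with h | h
  · obtain ⟨n, rfl⟩ : ∃ n, N = n + 2 := ⟨N - 2, by omega⟩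
    let _ : Pool.Agent.KS6_20.WV.Dil := ⟨n⟩
    have hcast : ((n + 2 : ℕ) : ℝ) = (n : ℝ) + 2 := by push_cast; ring
    simp only [hcast] at hF ⊢
    exact Pool.Agent.KS6_20.WV.Lar.main (show 1 ≤ n by omega) φ F hφ hF ho hc
  · obtain rfl : N = 2 := le_antisymm h hN
    have hcast : ((2 : ℕ) : ℝ) = (2 : ℝ) := by norm_num
    simp only [hcast] at hF ⊢
    exact Pool.Agent.Helper152.Lar.main φ F hφ hF ho hc

end Pool.Agent.Results.MP_d16bbf_an.EveryIntegerDilation
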